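import Mathlib

/-! A potential on coincidences of a finite sequence. -/

set_option autoImplicit false

namespace Pool.Agent.P.MP_de9ecd_al.Syl

open Finset

noncomputable section

open Classical

/-- the weight of a pair at distance `r` -/
def wt (r : ℕ) : ℝ := ((r : ℝ) ^ 12)⁻¹

theorem wt_nonneg (r : ℕ) : 0 ≤ wt r := by unfold wt; positivity

/-- the weighted number of coincidences among `x 0, ..., x L` -/
def Phi {α : Type} (x : ℕ → α) (L : ℕ) : ℝ :=
  ∑ i ∈ range (L + 1), ∑ k ∈ range (L + 1), if i < k ∧ x i = x k then wt (k - i) else 0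

theorem ite_nonneg' {P : Prop} [Decidable P] {a : ℝ} (h : 0 ≤ a) : 0 ≤ if P then a else 0 := by
  split_ifs
  · exact h
  · exact le_rfl

theorem Phi_nonneg {α : Type} (x : ℕ → α) (L : ℕ) : 0 ≤ Phi x L :=
  sum_nonneg fun _ _ => sum_nonneg fun _ _ => ite_nonneg' (wt_nonneg _)

theorem sq_sum (S : Finset ℕ) (φ : ℕ → ℕ) (hi : Set.InjOn φ S) (h1 : ∀ i ∈ S, 1 ≤ φ i) :
    ∑ i ∈ S, ((φ i : ℝ) ^ 2)⁻¹ ≤ 2 := by
  have h2 : ∑ i ∈ S, ((φ i : ℝ) ^ 2)⁻¹ = ∑ a ∈ S.image φ, ((a : ℝ) ^ 2)⁻¹ :=
    (sum_image (f := fun a : ℕ => ((a : ℝ) ^ 2)⁻¹) hi).symm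
  have h3 : S.image φ ⊆ Ioo 0 (S.sup φ + 1) := by
    intro a ha
    obtain ⟨i, hi, rfl⟩ := mem_image.1 ha
    exact mem_Ioo.2 ⟨h1 i hi, Nat.lt_succ_of_le (le_sup hi)⟩
  have h4 := sum_Ioo_inv_sq_le (α := ℝ) 0 (S.sup φ + 1)
  rw [h2]
  refine (sum_le_sum_of_subset_of_nonneg h3 fun _ _ _ => by positivity).trans (h4.trans ?_)
  norm_num

theorem Phi_le {α : Type} (x : ℕ → α) (L : ℕ) : Phi x L ≤ 2 * (L + 1) := by
  have : ∀ i ∈ range (L + 1),
      (∑ k ∈ range (L + 1), if i < k ∧ x i = x k then wt (k - i) else 0) ≤ 2 := by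
    intro i _
    rw [← sum_filter]
    refine le_trans (sum_le_sum fun k hk => ?_) (sq_sum _ (fun k => k - i) ?_ ?_)
    · have h1 : 1 ≤ k - i := by have := (mem_filter.1 hk).2.1; omega
      have h2 : (1 : ℝ) ≤ ((k - i : ℕ) : ℝ) := by exact_mod_cast h1
      unfold wt
      exact inv_anti₀ (by positivity) (pow_le_pow_right₀ h2 (by norm_num))
    · intro a ha b hb hab
      have h1 := (mem_filter.1 ha).2.1
      have h2 := (mem_filter.1 hb).2.1
      simp only at hab
      omega
    · intro k hk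
      have := (mem_filter.1 hk).2.1
      omega
  refine (sum_le_sum this).trans ?_
  simp [mul_comm]

theorem wt_le_Phi {α : Type} (x : ℕ → α) {L : ℕ} (hL : 0 < L) (h : x 0 = x L) :
    wt L ≤ Phi x L := by
  refine le_trans ?_ (single_le_sum (f := fun i => ∑ k ∈ range (L + 1),
    if i < k ∧ x i = x k then wt (k - i) else 0)
    (fun _ _ => sum_nonneg fun _ _ => ite_nonneg' (wt_nonneg _)) (mem_range.2 (Nat.succ_pos L)))
  refine le_trans ?_ (single_le_sum (f := fun k => if 0 < k ∧ x 0 = x k then wt (k - 0) else 0)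
    (fun _ _ => ite_nonneg' (wt_nonneg _)) (mem_range.2 (Nat.lt_succ_self L)))
  simp [hL, h]

/-- consecutive coincidence -/
def Mn {β : Type} (y : ℕ → β) (c c' : ℕ) : Prop :=
  c < c' ∧ y c = y c' ∧ ∀ m, c < m → m < c' → y m ≠ y c

theorem exists_mn {β : Type} (y : ℕ → β) (v : β) : ∀ (r i k : ℕ), k - i ≤ r → i < k → y i = v →
    y k = v → ∃ c c', i ≤ c ∧ c' ≤ k ∧ y c = v ∧ Mn y c c' ∧
      (c' - c) * (Nat.count (fun m => y m = v) k - Nat.count (fun m => y m = v) i) ≤ k - i := by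
  intro r
  induction r with
  | zero => intro i k h1 h2; omega
  | succ r ih =>
    intro i k h1 h2 hi hk
    have hex : ∃ m, i < m ∧ y m = v := ⟨k, h2, hk⟩
    have hs := Nat.find_spec hex
    have hmin : ∀ m, i < m → m < Nat.find hex → y m ≠ v := fun m a b c =>
      Nat.find_min hex b ⟨a, c⟩
    have hle : Nat.find hex ≤ k := Nat.find_min' hex ⟨h2, hk⟩
    generalize Nat.find hex = i' at hs hmin hle
    have hM : Mn y i i' := ⟨hs.1, hi.trans hs.2.symm, fun m a b => hi ▸ hmin m a b⟩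
    have hc : Nat.count (fun m => y m = v) i' = Nat.count (fun m => y m = v) i + 1 := by
      have : ∀ d, i + 1 + d ≤ i' → Nat.count (fun m => y m = v) (i + 1 + d) =
          Nat.count (fun m => y m = v) i + 1 := by
        intro d
        induction d with
        | zero => intro _; rw [Nat.add_zero, Nat.count_succ, if_pos hi]
        | succ d ihd =>
          intro hd
          rw [← Nat.add_assoc, Nat.count_succ, ihd (by omega),
            if_neg (hmin _ (by omega) (by omega))]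
      have h3 := this (i' - (i + 1)) (by omega)
      rwa [show i + 1 + (i' - (i + 1)) = i' by omega] at h3
    rcases hle.eq_or_lt with rfl | hlt
    · exact ⟨i, i', le_rfl, le_rfl, hi, hM, by rw [hc]; simp⟩
    · obtain ⟨c, c', a1, a2, a3, a4, a5⟩ := ih i' k (by omega) hlt hs.2 hk
      have hmono : Nat.count (fun m => y m = v) i' ≤ Nat.count (fun m => y m = v) k :=
        Nat.count_monotone _ hle
      have hs1 : Nat.count (fun m => y m = v) k - Nat.count (fun m => y m = v) i =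
          Nat.count (fun m => y m = v) k - Nat.count (fun m => y m = v) i' + 1 := by omega
      generalize Nat.count (fun m => y m = v) k - Nat.count (fun m => y m = v) i' = s at a5 hs1
      rw [hs1]
      have h4 := hs.1
      by_cases hcase : i' - i ≤ c' - c
      · refine ⟨i, i', le_rfl, hle, hi, hM, ?_⟩
        have := Nat.mul_le_mul_right s hcase
        rw [Nat.mul_succ]; omega
      · refine ⟨c, c', by omega, a2, a3, a4, ?_⟩
        rw [Nat.mul_succ]; omega

/-- the sum over consecutive coincidences -/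
def Psi {β : Type} (y : ℕ → β) (L : ℕ) : ℝ :=
  ∑ c ∈ range (L + 1), ∑ c' ∈ range (L + 1), if Mn y c c' then wt (c' - c) else 0

theorem Phi_le_Psi {β : Type} (y : ℕ → β) (L : ℕ) : Phi y L ≤ 4 * Psi y L := by
  let N : ℕ → ℕ → ℕ := fun c m => Nat.count (fun j => y j = y c) m
  let A : ℕ → ℕ → ℝ := fun c i =>
    if i ≤ c ∧ y i = y c then (((N c c - N c i + 1 : ℕ) : ℝ) ^ 2)⁻¹ else 0
  let B : ℕ → ℕ → ℝ := fun c k =>
    if c < k ∧ y k = y c then (((N c k - N c c : ℕ) : ℝ) ^ 2)⁻¹ else 0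
  let W : ℕ → ℕ → ℝ := fun c c' => if Mn y c c' then wt (c' - c) else 0
  have hA0 : ∀ c i, 0 ≤ A c i := fun _ _ => ite_nonneg' (by positivity)
  have hB0 : ∀ c i, 0 ≤ B c i := fun _ _ => ite_nonneg' (by positivity)
  have hW0 : ∀ c i, 0 ≤ W c i := fun _ _ => ite_nonneg' (wt_nonneg _)
  have hA : ∀ c, ∑ i ∈ range (L + 1), A c i ≤ 2 := by
    intro c
    simp only [A]
    rw [← sum_filter]
    refine sq_sum _ (fun i => N c c - N c i + 1) ?_ fun _ _ => by omega
    intro a ha b hb hab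
    obtain ⟨a1, a2⟩ := (mem_filter.1 ha).2
    obtain ⟨b1, b2⟩ := (mem_filter.1 hb).2
    have h1 : N c a ≤ N c c := Nat.count_monotone _ a1
    have h2 : N c b ≤ N c c := Nat.count_monotone _ b1
    simp only at hab
    exact Nat.count_injective (p := fun j => y j = y c) a2 b2 (show N c a = N c b by omega)
  have hB : ∀ c, ∑ k ∈ range (L + 1), B c k ≤ 2 := by
    intro c
    simp only [B]
    rw [← sum_filter]
    refine sq_sum _ (fun k => N c k - N c c) ?_ ?_
    · intro a ha b hb hab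
      obtain ⟨a1, a2⟩ := (mem_filter.1 ha).2
      obtain ⟨b1, b2⟩ := (mem_filter.1 hb).2
      have h1 : N c c ≤ N c a := Nat.count_monotone _ a1.le
      have h2 : N c c ≤ N c b := Nat.count_monotone _ b1.le
      simp only at hab
      exact Nat.count_injective (p := fun j => y j = y c) a2 b2 (show N c a = N c b by omega)
    · intro k hk
      have h1 : N c c < N c k :=
        Nat.count_strict_mono (p := fun j => y j = y c) rfl (mem_filter.1 hk).2.1
      omega
  have key : ∀ i ∈ range (L + 1), ∀ k ∈ range (L + 1),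
      (if i < k ∧ y i = y k then wt (k - i) else 0) ≤
        ∑ c ∈ range (L + 1), ∑ c' ∈ range (L + 1), W c c' * (A c i * B c k) := by
    intro i _ k hk
    have hn : ∀ c c', 0 ≤ W c c' * (A c i * B c k) := fun c c' =>
      mul_nonneg (hW0 _ _) (mul_nonneg (hA0 _ _) (hB0 _ _))
    split_ifs with h
    · obtain ⟨c, c', a1, a2, a3, a4, a5⟩ := exists_mn y (y i) _ i k le_rfl h.1 rfl h.2.symm
      have hk' := mem_range.1 hk
      have hcc := a4.1
      refine le_trans ?_ (single_le_sum (f := fun c => ∑ c' ∈ range (L + 1),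
        W c c' * (A c i * B c k)) (fun _ _ => sum_nonneg fun _ _ => hn _ _)
        (mem_range.2 (show c < L + 1 by omega)))
      refine le_trans ?_ (single_le_sum (f := fun c' => W c c' * (A c i * B c k))
        (fun _ _ => hn _ _) (mem_range.2 (show c' < L + 1 by omega)))
      simp only [W, A, B]
      rw [if_pos a4, if_pos ⟨a1, a3.symm⟩, if_pos ⟨by omega, h.2.symm.trans a3.symm⟩]
      rw [← a3] at a5
      change (c' - c) * (N c k - N c i) ≤ k - i at a5
      have h1 : N c i ≤ N c c := Nat.count_monotone _ a1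
      have h2 : N c c < N c k :=
        Nat.count_strict_mono (p := fun j => y j = y c) rfl (show c < k by omega)
      have e1 : ((N c c - N c i + 1 : ℕ) : ℝ) ≤ ((N c k - N c i : ℕ) : ℝ) := by
        exact_mod_cast (show N c c - N c i + 1 ≤ N c k - N c i by omega)
      have e2 : ((N c k - N c c : ℕ) : ℝ) ≤ ((N c k - N c i : ℕ) : ℝ) := by
        exact_mod_cast (show N c k - N c c ≤ N c k - N c i by omega)
      have e3 : ((c' - c : ℕ) : ℝ) * ((N c k - N c i : ℕ) : ℝ) ≤ ((k - i : ℕ) : ℝ) := by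
        exact_mod_cast a5
      have p1 : (1 : ℝ) ≤ ((N c c - N c i + 1 : ℕ) : ℝ) := by
        exact_mod_cast (show 1 ≤ N c c - N c i + 1 by omega)
      have p2 : (1 : ℝ) ≤ ((N c k - N c c : ℕ) : ℝ) := by
        exact_mod_cast (show 1 ≤ N c k - N c c by omega)
      have p3 : (1 : ℝ) ≤ ((c' - c : ℕ) : ℝ) := by
        exact_mod_cast (show 1 ≤ c' - c by omega)
      generalize ((N c c - N c i + 1 : ℕ) : ℝ) = a at *
      generalize ((N c k - N c c : ℕ) : ℝ) = b at *
      generalize ((N c k - N c i : ℕ) : ℝ) = s at *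
      unfold wt
      generalize ((c' - c : ℕ) : ℝ) = d at *
      generalize ((k - i : ℕ) : ℝ) = r at *
      rw [← mul_inv, ← mul_inv]
      refine inv_anti₀ (by positivity) ?_
      have hs : 1 ≤ s := p1.trans e1
      calc d ^ 12 * (a ^ 2 * b ^ 2) ≤ d ^ 12 * (s ^ 2 * s ^ 2) := by gcongr
        _ = d ^ 12 * s ^ 4 := by ring
        _ ≤ d ^ 12 * s ^ 12 := by gcongr; norm_num
        _ = (d * s) ^ 12 := by ring
        _ ≤ r ^ 12 := by gcongr
    · exact sum_nonneg fun _ _ => sum_nonneg fun _ _ => hn _ _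
  calc Phi y L ≤ ∑ i ∈ range (L + 1), ∑ k ∈ range (L + 1), ∑ c ∈ range (L + 1),
        ∑ c' ∈ range (L + 1), W c c' * (A c i * B c k) :=
        sum_le_sum fun i hi => sum_le_sum fun k hk => key i hi k hk
    _ = ∑ c ∈ range (L + 1), ∑ c' ∈ range (L + 1),
        W c c' * ((∑ i ∈ range (L + 1), A c i) * ∑ k ∈ range (L + 1), B c k) := by
        simp only [sum_mul_sum]
        simp only [mul_sum]
        rw [sum_comm_cycle]
        refine sum_congr rfl fun c _ => ?_
        rw [sum_comm_cycle]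
    _ ≤ ∑ c ∈ range (L + 1), ∑ c' ∈ range (L + 1), W c c' * (2 * 2) := by
        refine sum_le_sum fun c _ => sum_le_sum fun c' _ => ?_
        refine mul_le_mul_of_nonneg_left ?_ (hW0 _ _)
        exact mul_le_mul (hA c) (hB c) (sum_nonneg fun _ _ => hB0 _ _) (by norm_num)
    _ = 4 * Psi y L := by
        unfold Psi
        rw [mul_sum]
        refine sum_congr rfl fun c _ => ?_
        rw [mul_sum]
        refine sum_congr rfl fun c' _ => ?_
        simp only [W]; ring

theorem max_sum (g B : ℕ) (hg : 1 ≤ g) :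
    ∑ d ∈ Ioc 0 B, (((max g d : ℕ) : ℝ) ^ 13)⁻¹ ≤ 2 * wt g := by
  have hg' : (1 : ℝ) ≤ g := by exact_mod_cast hg
  have h0 : Ioc 0 B ⊆ Ioc 0 g ∪ Ioc g (g + B) := by
    intro d hd
    simp only [mem_union, mem_Ioc] at hd ⊢
    omega
  have h1 : ∑ d ∈ Ioc 0 g, (((max g d : ℕ) : ℝ) ^ 13)⁻¹ = wt g := by
    rw [sum_congr rfl (g := fun _ => ((g : ℝ) ^ 13)⁻¹) fun d hd => by
      rw [max_eq_left (mem_Ioc.1 hd).2]]
    simp only [sum_const, Nat.card_Ioc, Nat.sub_zero, nsmul_eq_mul, wt]
    field_simp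
  have h2 : ∑ d ∈ Ioc g (g + B), (((max g d : ℕ) : ℝ) ^ 13)⁻¹ ≤ wt g := by
    have h3 := sum_Ioc_inv_sq_le_sub (α := ℝ) (k := g) (n := g + B) (by omega) (by omega)
    calc _ ≤ ∑ d ∈ Ioc g (g + B), ((g : ℝ) ^ 11)⁻¹ * ((d : ℝ) ^ 2)⁻¹ := by
          refine sum_le_sum fun d hd => ?_
          have hd' : (g : ℝ) ≤ d := by exact_mod_cast (mem_Ioc.1 hd).1.le
          rw [max_eq_right (mem_Ioc.1 hd).1.le, ← mul_inv]
          refine inv_anti₀ (by have := hg'.trans hd'; positivity) ?_
          calc (g : ℝ) ^ 11 * (d : ℝ) ^ 2 ≤ (d : ℝ) ^ 11 * (d : ℝ) ^ 2 := by gcongr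
            _ = _ := by ring
      _ ≤ ((g : ℝ) ^ 11)⁻¹ * (g : ℝ)⁻¹ := by
          rw [← mul_sum]
          refine mul_le_mul_of_nonneg_left (h3.trans ?_) (by positivity)
          have : (0 : ℝ) ≤ (((g + B : ℕ) : ℝ))⁻¹ := by positivity
          linarith
      _ = wt g := by unfold wt; field_simp
  refine (sum_le_sum_of_subset_of_nonneg h0 fun _ _ _ => by positivity).trans ?_
  rw [sum_union (by rw [disjoint_left]; intro d a b; simp only [mem_Ioc] at a b; omega)]
  linarith

theorem Psi_le {α β : Type} (x : ℕ → α) (y : ℕ → β) (L : ℕ)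
    (h : ∀ i k, i < k → k ≤ L → y i = y k → i + 2 ≤ k ∧
      ∀ j, i ≤ j → j < k → ∃ j', i ≤ j' ∧ j' ≤ k ∧ j' ≠ j ∧ x j' = x j) :
    Psi y L ≤ 16 * (2 / 3) ^ 13 * Phi x L := by
  let H : ℕ → ℕ → ℕ → ℝ := fun c j j' =>
    if j' ≠ j ∧ x j' = x j then
      (if c < j then (((max (j - j' + (j' - j)) (j - c) : ℕ) : ℝ) ^ 13)⁻¹ else 0) else 0
  have hH0 : ∀ c j j', 0 ≤ H c j j' := fun _ _ _ => ite_nonneg' (ite_nonneg' (by positivity))
  have k1 : ∀ c ∈ range (L + 1), (∑ c' ∈ range (L + 1), if Mn y c c' then wt (c' - c) else 0) ≤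
      4 * (2 / 3) ^ 13 * ∑ j ∈ range (L + 1), ∑ j' ∈ range (L + 1), H c j j' := by
    intro c _
    have hn : 0 ≤ ∑ j ∈ range (L + 1), ∑ j' ∈ range (L + 1), H c j j' :=
      sum_nonneg fun _ _ => sum_nonneg fun _ _ => hH0 _ _ _
    by_cases hex : ∃ c' ∈ range (L + 1), Mn y c c'
    · obtain ⟨c', hc', hM⟩ := hex
      rw [sum_eq_single c' ?_ fun hh => absurd hc' hh, if_pos hM]
      swap
      · intro b _ hb
        refine if_neg fun hMb => ?_
        rcases lt_or_gt_of_ne hb with hl | hl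
        · exact hM.2.2 b hMb.1 hl hMb.2.1.symm
        · exact hMb.2.2 c' hM.1 hl hM.2.1.symm
      have hcL := mem_range.1 hc'
      obtain ⟨h2, h3⟩ := h c c' hM.1 (by omega) hM.2.1
      obtain ⟨r, rfl⟩ := Nat.exists_eq_add_of_le hM.1.le
      rw [Nat.add_sub_cancel_left]
      have hr : (2 : ℝ) ≤ r := by exact_mod_cast (show 2 ≤ r by omega)
      have hD : Ico (c + (r + 2) / 3) (c + 2 * r / 3 + 1) ⊆ range (L + 1) := by
        intro j hj
        have := mem_Ico.1 hj
        exact mem_range.2 (by omega)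
      have h4 : ∀ j ∈ Ico (c + (r + 2) / 3) (c + 2 * r / 3 + 1),
          ((2 / 3 * (r : ℝ)) ^ 13)⁻¹ ≤ ∑ j' ∈ range (L + 1), H c j j' := by
        intro j hj
        have hj' := mem_Ico.1 hj
        obtain ⟨j', a1, a2, a3, a4⟩ := h3 j (by omega) (by omega)
        refine le_trans ?_ (single_le_sum (f := fun j' => H c j j') (fun _ _ => hH0 _ _ _)
          (mem_range.2 (show j' < L + 1 by omega)))
        simp only [H]
        rw [if_pos ⟨a3, a4⟩, if_pos (by omega)]
        have e1 : 3 * max (j - j' + (j' - j)) (j - c) ≤ 2 * r := by omega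
        have e2 : 1 ≤ max (j - j' + (j' - j)) (j - c) := by omega
        generalize max (j - j' + (j' - j)) (j - c) = m at e1 e2
        have e3 : (3 : ℝ) * m ≤ 2 * r := by exact_mod_cast e1
        have e4 : (1 : ℝ) ≤ m := by exact_mod_cast e2
        refine inv_anti₀ (by positivity) ?_
        gcongr
        linarith
      have h5 := (card_nsmul_le_sum _ _ _ h4).trans
        (sum_le_sum_of_subset_of_nonneg hD fun _ _ _ => sum_nonneg fun _ _ => hH0 _ _ _)
      rw [Nat.card_Ico, nsmul_eq_mul] at h5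
      have h6 : r ≤ 4 * (c + 2 * r / 3 + 1 - (c + (r + 2) / 3)) := by omega
      generalize c + 2 * r / 3 + 1 - (c + (r + 2) / 3) = q at h5 h6
      have h7 : (r : ℝ) ≤ 4 * q := by exact_mod_cast h6
      refine le_trans ?_ (mul_le_mul_of_nonneg_left h5 (by positivity))
      calc wt r = (r : ℝ) * ((r : ℝ) ^ 13)⁻¹ := by unfold wt; field_simp
        _ ≤ (4 * q) * ((r : ℝ) ^ 13)⁻¹ := by gcongr
        _ = _ := by field_simp
    · rw [sum_eq_zero fun c' hc' => if_neg fun hM => hex ⟨c', hc', hM⟩]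
      positivity
  have k2 : ∀ j ∈ range (L + 1), ∀ j', ∑ c ∈ range (L + 1), H c j j' ≤
      2 * ((if j < j' ∧ x j = x j' then wt (j' - j) else 0) +
        if j' < j ∧ x j' = x j then wt (j - j') else 0) := by
    intro j hj j'
    by_cases hp : j' ≠ j ∧ x j' = x j
    · simp only [H, if_pos hp]
      have e : (if j < j' ∧ x j = x j' then wt (j' - j) else 0) +
          (if j' < j ∧ x j' = x j then wt (j - j') else 0) = wt (j - j' + (j' - j)) := by
        rcases lt_or_gt_of_ne hp.1 with hl | hl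
        · rw [if_neg (by omega), if_pos ⟨hl, hp.2⟩, zero_add]; congr 1; omega
        · rw [if_pos ⟨hl, hp.2.symm⟩, if_neg (by omega), add_zero]; congr 1; omega
      rw [e, ← sum_filter]
      refine le_trans (le_of_eq ?_) (max_sum _ j (by have := hp.1; omega))
      have hj' := mem_range.1 hj
      refine sum_nbij' (fun c => j - c) (fun d => j - d) ?_ ?_ ?_ ?_ ?_
      · intro c hc
        simp only [mem_filter, mem_range, mem_Ioc] at hc ⊢
        omega
      · intro c hc
        simp only [mem_filter, mem_range, mem_Ioc] at hc ⊢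
        omega
      · intro c hc
        simp only [mem_filter, mem_range] at hc ⊢
        omega
      · intro c hc
        simp only [mem_Ioc] at hc ⊢
        omega
      · intro c _
        rfl
    · simp only [H, if_neg hp, sum_const_zero]
      have := ite_nonneg' (P := j < j' ∧ x j = x j') (wt_nonneg (j' - j))
      have := ite_nonneg' (P := j' < j ∧ x j' = x j) (wt_nonneg (j - j'))
      positivity
  calc Psi y L ≤ ∑ c ∈ range (L + 1),
        4 * (2 / 3) ^ 13 * ∑ j ∈ range (L + 1), ∑ j' ∈ range (L + 1), H c j j' := sum_le_sum k1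
    _ = 4 * (2 / 3) ^ 13 * ∑ j ∈ range (L + 1), ∑ j' ∈ range (L + 1),
        ∑ c ∈ range (L + 1), H c j j' := by
        rw [← mul_sum, sum_comm_cycle, sum_comm_cycle]
    _ ≤ 4 * (2 / 3) ^ 13 * ∑ j ∈ range (L + 1), ∑ j' ∈ range (L + 1),
        2 * ((if j < j' ∧ x j = x j' then wt (j' - j) else 0) +
          if j' < j ∧ x j' = x j then wt (j - j') else 0) := by
        gcongr with j hj j' _
        exact k2 j hj j'
    _ = _ := by
        simp only [← mul_sum, sum_add_distrib]
        rw [sum_comm (f := fun j j' => if j' < j ∧ x j' = x j then wt (j - j') else 0)]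
        unfold Phi
        ring

theorem Phi_half {α β : Type} (x : ℕ → α) (y : ℕ → β) (L : ℕ)
    (h : ∀ i k, i < k → k ≤ L → y i = y k → i + 2 ≤ k ∧
      ∀ j, i ≤ j → j < k → ∃ j', i ≤ j' ∧ j' ≤ k ∧ j' ≠ j ∧ x j' = x j) :
    Phi y L ≤ Phi x L / 2 := by
  have h1 := Phi_le_Psi y L
  have h2 := Psi_le x y L h
  have h3 := Phi_nonneg x L
  have h4 : (16 : ℝ) * (2 / 3) ^ 13 ≤ 1 / 8 := by norm_num
  nlinarith

end

end Pool.Agent.P.MP_de9ecd_al.Syl
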