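import Pool.Agent.P.MP_de9ecd_al.Syl.Tower

/-! Union bound over words and transfer to Sylow subgroups. -/

set_option autoImplicit false
set_option linter.unusedSectionVars false

namespace Pool.Agent.P.MP_de9ecd_al.Syl

open Finset Equiv

noncomputable section

open Classical

theorem pre_eq {X ι : Type} (g : ι → Perm X) (l : List (ι × Bool)) (s : ι × Bool) :
    ∀ j ≤ l.length, pre g (fun j => l.getD j s) j =
      (FreeGroup.lift g (FreeGroup.mk (l.take j)))⁻¹ := by
  intro j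
  induction j with
  | zero => intro _; rfl
  | succ j ih =>
    intro hj
    rw [pre, ih (by omega), List.take_succ_eq_append_getElem hj, ← FreeGroup.mul_mk, map_mul,
      mul_inv_rev, List.getD_eq_getElem _ _ hj]
    congr 1
    rw [FreeGroup.lift_mk, lt]
    cases hb : (l[j]).2 <;> simp [hb]

theorem Good.count' {p n : ℕ} (hp : 2 ≤ p) {X A ι : Type} [Fintype X] [Fintype A] [Fintype ι]
    {ρ : A → Perm X} (h : Good p n ρ) {V : ℕ → ι × Bool} {L s k : ℕ} (hV : Red V L) (h1 : 0 < L)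
    (h2 : L ≤ 2 ^ s) (hn : 38 * s + 2 * k + 14 ≤ n) (B : Finset (ι → A))
    (hB : ∀ g ∈ B, pre (fun a => ρ (g a)) V L = 1) :
    (B.card : ℝ) ≤ Nat.card (ι → A) * (1 / 2) ^ (2 ^ s * (2 * k + 2)) := by
  rw [Nat.card_eq_fintype_card]
  exact le_trans (Nat.cast_le.2 (card_le_card fun g hg => mem_filter.2 ⟨mem_univ _, hB g hg⟩))
    (h.count hp hV h1 h2 hn)

theorem model_count {p n : ℕ} (hp : 2 ≤ p) {X A : Type} [Fintype X] [Fintype A]
    {ρ : A → Perm X} (h : Good p n ρ) {s k : ℕ} (hn : 38 * s + 2 * k + 14 ≤ n) :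
    ((univ.filter fun g : Fin k → A => ∃ w : FreeGroup (Fin k), w ≠ 1 ∧ w.norm ≤ 2 ^ s ∧
      FreeGroup.lift (fun a => ρ (g a)) w = 1).card : ℝ) ≤
        Fintype.card (Fin k → A) * (1 / 2) ^ (2 ^ s) := by
  let W : Finset (List (Fin k × Bool)) := (range (2 ^ s + 1)).biUnion fun m =>
    univ.image (List.ofFn : (Fin m → Fin k × Bool) → List (Fin k × Bool))
  let B : List (Fin k × Bool) → Finset (Fin k → A) := fun l => univ.filter fun g =>
    l ≠ [] ∧ FreeGroup.IsReduced l ∧ l.length ≤ 2 ^ s ∧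
      FreeGroup.lift (fun a => ρ (g a)) (FreeGroup.mk l) = 1
  have h1 : (univ.filter fun g : Fin k → A => ∃ w : FreeGroup (Fin k), w ≠ 1 ∧ w.norm ≤ 2 ^ s ∧
      FreeGroup.lift (fun a => ρ (g a)) w = 1) ⊆ W.biUnion B := by
    intro g hg
    obtain ⟨w, a1, a2, a3⟩ := (mem_filter.1 hg).2
    refine mem_biUnion.2 ⟨w.toWord, mem_biUnion.2 ⟨w.toWord.length,
      mem_range.2 (Nat.lt_succ_of_le a2), mem_image.2 ⟨w.toWord.get, mem_univ _, by simp⟩⟩,
      mem_filter.2 ⟨mem_univ _, ?_, FreeGroup.isReduced_toWord, a2, ?_⟩⟩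
    · rwa [Ne, FreeGroup.toWord_eq_nil_iff]
    · rwa [FreeGroup.mk_toWord]
  have h2 : ∀ l, ((B l).card : ℝ) ≤
      Fintype.card (Fin k → A) * (1 / 2) ^ (2 ^ s * (2 * k + 2)) := by
    intro l
    rcases (B l).eq_empty_or_nonempty with he | ⟨g0, hg0⟩
    · rw [he, card_empty, Nat.cast_zero]; positivity
    obtain ⟨a1, a2, a3, -⟩ := (mem_filter.1 hg0).2
    obtain ⟨s0, -⟩ := List.exists_mem_of_ne_nil l a1
    have hV : Red (fun j => l.getD j s0) l.length := by
      intro j hj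
      simp only [List.getD_eq_getElem _ _ hj, List.getD_eq_getElem _ _ (Nat.lt_of_succ_lt hj)]
      exact List.isChain_iff_getElem.1 a2 j hj
    rw [← Nat.card_eq_fintype_card]
    refine h.count' hp hV (List.length_pos_iff.2 a1) a3 hn _ fun g hg => ?_
    rw [pre_eq _ l s0 _ le_rfl, List.take_length, (mem_filter.1 hg).2.2.2.2, inv_one]
  have h3 : W.card ≤ 2 ^ (2 ^ s * (2 * k + 1)) := by
    have e1 : ∀ m ∈ range (2 ^ s + 1), (univ.image
        (List.ofFn : (Fin m → Fin k × Bool) → List (Fin k × Bool))).card ≤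
          (2 ^ (2 * k)) ^ (2 ^ s) := by
      intro m hm
      refine card_image_le.trans ?_
      rw [card_univ, Fintype.card_fun, Fintype.card_prod, Fintype.card_fin, Fintype.card_fin,
        Fintype.card_bool]
      have e2 : k * 2 ≤ 2 ^ (2 * k) := by rw [mul_comm]; exact Nat.lt_two_pow_self.le
      exact (Nat.pow_le_pow_left e2 _).trans
        (Nat.pow_le_pow_right (by positivity) (Nat.lt_succ_iff.1 (mem_range.1 hm)))
    refine (card_biUnion_le_card_mul _ _ _ e1).trans ?_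
    rw [card_range]
    have e3 : 2 ^ s + 1 ≤ 2 ^ 2 ^ s := Nat.lt_two_pow_self
    refine (Nat.mul_le_mul_right _ e3).trans (le_of_eq ?_)
    rw [← pow_mul, ← pow_add]
    congr 1
    ring
  calc _ ≤ ((W.biUnion B).card : ℝ) := Nat.cast_le.2 (card_le_card h1)
    _ ≤ ∑ l ∈ W, ((B l).card : ℝ) := by exact_mod_cast card_biUnion_le
    _ ≤ W.card * (Fintype.card (Fin k → A) * (1 / 2) ^ (2 ^ s * (2 * k + 2))) := by
        rw [← nsmul_eq_mul]
        exact sum_le_card_nsmul _ _ _ fun l _ => h2 l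
    _ ≤ (2 : ℝ) ^ (2 ^ s * (2 * k + 1)) *
        (Fintype.card (Fin k → A) * (1 / 2) ^ (2 ^ s * (2 * k + 2))) := by
        gcongr
        exact_mod_cast h3
    _ = _ := by
        rw [show 2 ^ s * (2 * k + 2) = 2 ^ s * (2 * k + 1) + 2 ^ s by ring, pow_add (1 / 2 : ℝ),
          one_div_pow]
        field_simp

theorem val_split {p n N : ℕ} [hp : Fact p.Prime] (h1 : p ^ n ≤ N) (h2 : N < p ^ (n + 1)) :
    N.factorial.factorization p =
      ∑ i ∈ range n, p ^ i + (N - p ^ n).factorial.factorization p := by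
  have hl : ∀ m ≤ N, Nat.log p m < n + 1 := fun m hm =>
    Nat.log_lt_of_lt_pow' (by omega) (hm.trans_lt h2)
  rw [← Nat.Prime.multiplicity_factorial_pow hp.out,
    Nat.multiplicity_eq_factorization hp.out (p ^ n).factorial_ne_zero,
    Nat.factorization_factorial hp.out (hl N le_rfl), Nat.factorization_factorial hp.out (hl _ h1),
    Nat.factorization_factorial hp.out (hl _ (Nat.sub_le _ _)), ← sum_add_distrib]
  refine sum_congr rfl fun i hi => ?_
  rw [← Nat.add_div_of_dvd_right (pow_dvd_pow p (Nat.lt_succ_iff.1 (mem_Ico.1 hi).2)),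
    Nat.add_sub_cancel' h1]

theorem sylow_split {p n N : ℕ} [hp : Fact p.Prime] (h1 : p ^ n ≤ N) (h2 : N < p ^ (n + 1))
    {X : Type} [Fintype X] (hX : Fintype.card X = p ^ n) (H : Subgroup (Perm X))
    (hH : Nat.card H = p ^ ∑ i ∈ range n, p ^ i) (P : Sylow p (Perm (Fin N))) :
    ∃ (B : Type) (_ : Group B) (_ : Fintype B), Nonempty (P ≃* H × B) := by
  obtain ⟨S⟩ : Nonempty (Sylow p (Perm (Fin (N - p ^ n)))) := inferInstance
  let e : X ⊕ Fin (N - p ^ n) ≃ Fin N := Fintype.equivFinOfCardEq (by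
    rw [Fintype.card_sum, hX, Fintype.card_fin, Nat.add_sub_cancel' h1])
  let f : H × (S : Subgroup (Perm (Fin (N - p ^ n)))) →* Perm (Fin N) :=
    e.permCongrHom.toMonoidHom.comp ((Perm.sumCongrHom _ _).comp
      (H.subtype.prodMap (S : Subgroup (Perm (Fin (N - p ^ n)))).subtype))
  have hf : Function.Injective f :=
    e.permCongrHom.injective.comp (Perm.sumCongrHom_injective.comp
      (Function.Injective.prodMap Subtype.val_injective Subtype.val_injective))
  let g := (MonoidHom.ofInjective hf).symm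
  let P' : Sylow p (Perm (Fin N)) := Sylow.ofCard f.range (by
    rw [Nat.card_congr g.toEquiv, Nat.card_prod, hH, S.card_eq_multiplicity, Nat.card_perm,
      Nat.card_perm, Nat.card_fin, Nat.card_fin, val_split h1 h2, pow_add])
  exact ⟨_, inferInstance, inferInstance, ⟨(P.equiv P').trans g⟩⟩

theorem transfer {P X A B : Type} [Group P] [Fintype A] [Fintype B] (ρ : A → Perm X)
    (f : P →* Perm X) (β : P ≃ A × B) (h : ∀ x, f x = ρ (β x).1) (k T : ℕ) :
    Nat.card {g : Fin k → P // ∃ w : FreeGroup (Fin k), w ≠ 1 ∧ w.norm ≤ T ∧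
      FreeGroup.lift g w = 1} ≤
    (univ.filter fun g : Fin k → A => ∃ w : FreeGroup (Fin k), w ≠ 1 ∧ w.norm ≤ T ∧
      FreeGroup.lift (fun a => ρ (g a)) w = 1).card * Fintype.card (Fin k → B) := by
  rw [← Fintype.card_coe, ← Fintype.card_prod, ← Nat.card_eq_fintype_card]
  refine Nat.card_le_card_of_injective (fun g => (⟨fun a => (β (g.1 a)).1, ?_⟩,
    fun a => (β (g.1 a)).2)) ?_
  · obtain ⟨w, a1, a2, a3⟩ := g.2
    refine mem_filter.2 ⟨mem_univ _, w, a1, a2, ?_⟩
    have : FreeGroup.lift (fun a => ρ (β (g.1 a)).1) = f.comp (FreeGroup.lift g.1) := by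
      ext1 a
      simp [h]
    rw [this, MonoidHom.comp_apply, a3, map_one]
  · intro g g' hh
    simp only [Prod.mk.injEq, Subtype.mk.injEq] at hh
    exact Subtype.ext (funext fun a => β.injective
      (Prod.ext (congrFun hh.1 a) (congrFun hh.2 a)))

theorem sylow_count {p n N s k : ℕ} [hp : Fact p.Prime] (h1 : p ^ n ≤ N) (h2 : N < p ^ (n + 1))
    (hn : 38 * s + 2 * k + 14 ≤ n) (P : Sylow p (Perm (Fin N))) :
    (Nat.card {g : Fin k → P // ∃ w : FreeGroup (Fin k), w ≠ 1 ∧ w.norm ≤ 2 ^ s ∧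
      FreeGroup.lift g w = 1} : ℝ) ≤ (1 / 2) ^ (2 ^ s) * (Nat.card P : ℝ) ^ k := by
  obtain ⟨X, A, _, _, ρ, H, a1, a2, a3, a4, a5⟩ := tower p n
  let η : A ≃ H := Equiv.ofBijective (fun a => ⟨ρ a, (a4 _).2 ⟨a, rfl⟩⟩)
    ⟨fun _ _ hh => a3 (congrArg Subtype.val hh), fun x => by
      obtain ⟨a, ha⟩ := (a4 _).1 x.2
      exact ⟨a, Subtype.ext ha⟩⟩
  obtain ⟨B, _, _, ⟨e⟩⟩ := sylow_split h1 h2 a1 H
    (by rw [← Nat.card_congr η, Nat.card_eq_fintype_card, a2]) P
  let β : P ≃ A × B := e.toEquiv.trans (η.symm.prodCongr (Equiv.refl B))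
  have h3 := transfer ρ (H.subtype.comp ((MonoidHom.fst H B).comp e.toMonoidHom)) β
    (fun x => (congrArg Subtype.val (η.apply_symm_apply (e x).1)).symm) k (2 ^ s)
  have h4 := model_count hp.out.two_le a5 hn
  refine (Nat.cast_le.2 h3).trans ?_
  rw [Nat.cast_mul]
  refine (mul_le_mul_of_nonneg_right h4 (Nat.cast_nonneg _)).trans (le_of_eq ?_)
  rw [Nat.card_congr β, Nat.card_eq_fintype_card, Fintype.card_prod, Fintype.card_fun,
    Fintype.card_fun, Fintype.card_fin]
  push_cast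
  ring

theorem walk_word {G ι : Type} [Group G] (g : ι → G) {u v : G}
    (q : (SimpleGraph.mulCayley (Set.range g)).Walk u v) (hq : q.IsTrail) :
    ∃ l : List (ι × Bool), l.length = q.length ∧ u * FreeGroup.lift g (FreeGroup.mk l) = v ∧
      FreeGroup.IsReduced l ∧
      ∀ x ∈ l.head?, s(u, u * cond x.2 (g x.1) (g x.1)⁻¹) ∈ q.edges := by
  induction q with
  | nil => exact ⟨[], rfl, by simp [FreeGroup.lift_mk], FreeGroup.IsReduced.nil, by simp⟩
  | @cons u u' v h q ih =>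
    rw [SimpleGraph.Walk.isTrail_cons] at hq
    obtain ⟨l, h1, h2, h3, h4⟩ := ih hq.1
    have : ∃ x : ι × Bool, u * cond x.2 (g x.1) (g x.1)⁻¹ = u' := by
      obtain ⟨-, _, ⟨a, rfl⟩, h5⟩ := (SimpleGraph.mulCayley_adj' _ _ _).1 h
      rcases h5 with h5 | h5
      · exact ⟨(a, true), h5⟩
      · exact ⟨(a, false), by simp [h5]⟩
    obtain ⟨x, hx⟩ := this
    refine ⟨x :: l, by simp [h1], ?_, ?_, ?_⟩
    · rw [← h2, ← hx]; simp [FreeGroup.lift_mk, mul_assoc]
    · refine List.isChain_cons.2 ⟨fun y hy e1 => ?_, h3⟩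
      by_contra hn
      have h6 := h4 y hy
      have e : u' * cond y.2 (g y.1) (g y.1)⁻¹ = u := by
        rw [← hx, ← e1]
        revert hn
        cases x.2 <;> cases y.2 <;> simp
      rw [e, Sym2.eq_swap] at h6
      exact hq.2 h6
    · intro y hy
      simp only [List.head?_cons, Option.mem_def, Option.some.injEq] at hy
      subst hy
      simp [hx]

theorem word_of_egirth {G ι : Type} [Group G] [DecidableEq ι] (g : ι → G) {T : ℕ}
    (h : (SimpleGraph.mulCayley (Set.range g)).egirth ≤ T) :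
    ∃ w : FreeGroup ι, w ≠ 1 ∧ w.norm ≤ T ∧ FreeGroup.lift g w = 1 := by
  by_contra hn
  have : ((T + 1 : ℕ) : ℕ∞) ≤ (SimpleGraph.mulCayley (Set.range g)).egirth := by
    refine SimpleGraph.le_egirth.2 fun u q hq => ?_
    obtain ⟨l, h1, h2, h3, -⟩ := walk_word g q hq.isTrail
    have h4 := hq.three_le_length
    refine Nat.cast_le.2 (Nat.succ_le_of_lt (lt_of_not_ge fun h5 => hn ⟨FreeGroup.mk l, ?_,
      FreeGroup.norm_mk_le.trans (h1.le.trans h5), by simpa using h2⟩))
    rw [Ne, ← FreeGroup.toWord_eq_nil_iff, FreeGroup.toWord_mk, h3.reduce_eq]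
    rintro rfl
    simp at h1
    omega
  have h5 := Nat.cast_le.1 (this.trans h)
  omega

theorem log_card_le {p N : ℕ} [hp : Fact p.Prime] (P : Sylow p (Perm (Fin N))) :
    Real.log (Nat.card P) ≤ N := by
  have h1 : (p - 1) * N.factorial.factorization p ≤ N := by
    rw [Nat.factorization_def _ hp.out, sub_one_mul_padicValNat_factorial]
    exact Nat.sub_le _ _
  have h2 : Nat.card P = p ^ N.factorial.factorization p := by
    have := P.card_eq_multiplicity
    rwa [Nat.card_perm, Nat.card_fin] at this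
  have h3 : (0 : ℝ) < p := by exact_mod_cast hp.out.pos
  have h4 : (((p - 1 : ℕ) : ℝ)) * N.factorial.factorization p ≤ N := by exact_mod_cast h1
  rw [Nat.cast_sub hp.out.one_le, Nat.cast_one] at h4
  rw [h2, Nat.cast_pow, Real.log_pow, mul_comm]
  exact (mul_le_mul_of_nonneg_right (Real.log_le_sub_one_of_pos h3) (Nat.cast_nonneg _)).trans h4

theorem rpow_le {p n N : ℕ} (hp : 2 ≤ p) (h2 : N < p ^ (n + 1)) (hn : 200 ≤ n) :
    (N : ℝ) ^ (1 / (100 * Real.log p)) ≤ 2 ^ (n / 40) := by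
  have h0 : (1 : ℝ) < p := by exact_mod_cast hp
  have hl : 0 < Real.log p := Real.log_pos h0
  have h3 : (N : ℝ) ≤ (p : ℝ) ^ (n + 1) := by exact_mod_cast h2.le
  have h4 : ((n : ℝ) + 1) / 100 ≤ (n / 40 : ℕ) * Real.log 2 := by
    have e1 : n + 1 ≤ 50 * (n / 40) := by omega
    have e2 : (n : ℝ) + 1 ≤ 50 * (n / 40 : ℕ) := by exact_mod_cast e1
    have e3 := Real.log_two_gt_d9
    have e4 : (0 : ℝ) ≤ (n / 40 : ℕ) := Nat.cast_nonneg _
    nlinarith
  calc _ ≤ ((p : ℝ) ^ (n + 1)) ^ (1 / (100 * Real.log p)) :=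
        Real.rpow_le_rpow (Nat.cast_nonneg _) h3 (by positivity)
    _ = Real.exp (((n : ℝ) + 1) / 100) := by
        rw [Real.rpow_def_of_pos (by positivity), Real.log_pow]
        congr 1
        push_cast
        field_simp
    _ ≤ Real.exp ((n / 40 : ℕ) * Real.log 2) := Real.exp_le_exp.2 h4
    _ = _ := by rw [Real.exp_nat_mul, Real.exp_log two_pos]

end

end Pool.Agent.P.MP_de9ecd_al.Syl
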