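import Pool.Agent.P.MP_de9ecd_al.Syl.Comb

/-! Trajectories of a word and one random abelian lift. -/

set_option autoImplicit false
set_option linter.unusedSectionVars false

namespace Pool.Agent.P.MP_de9ecd_al.Syl

open Finset Equiv

noncomputable section

open Classical

variable {X ι R : Type} [AddCommGroup R]

/-- the permutation read at a letter -/
def lt (g : ι → Perm X) (s : ι × Bool) : Perm X := cond s.2 (g s.1)⁻¹ (g s.1)

/-- the permutation read after `j` letters -/
def pre (g : ι → Perm X) (V : ℕ → ι × Bool) : ℕ → Perm X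
  | 0 => 1
  | j + 1 => lt g (V j) * pre g V j

/-- the trajectory of a point -/
def tr (g : ι → Perm X) (V : ℕ → ι × Bool) (x : X) (j : ℕ) : X := pre g V j x

theorem tr_zero (g : ι → Perm X) (V : ℕ → ι × Bool) (x : X) : tr g V x 0 = x := rfl

theorem tr_succ (g : ι → Perm X) (V : ℕ → ι × Bool) (x : X) (j : ℕ) :
    tr g V x (j + 1) = lt g (V j) (tr g V x j) := rfl

/-- the lift of a permutation along labels -/
def ext (h : Perm X) (φ : X → R) : Perm (X × R) :=
  Equiv.prodShear h fun x => Equiv.addRight (φ x)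

theorem ext_apply (h : Perm X) (φ : X → R) (x : X) (z : R) :
    ext h φ (x, z) = (h x, z + φ x) := rfl

theorem ext_inv_apply (h : Perm X) (φ : X → R) (x : X) (z : R) :
    (ext h φ)⁻¹ (x, z) = (h⁻¹ x, z + -φ (h⁻¹ x)) := by
  rw [Perm.inv_eq_iff_eq, ext_apply]
  simp

/-- the vertex carrying the label used at step `j` -/
def ed (g : ι → Perm X) (V : ℕ → ι × Bool) (x : X) (j : ℕ) : X :=
  cond (V j).2 (tr g V x (j + 1)) (tr g V x j)

/-- the signed label used at step `j` -/
def lab (g : ι → Perm X) (V : ℕ → ι × Bool) (x : X) (φ : ι → X → R) (j : ℕ) : R :=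
  cond (V j).2 (-φ (V j).1 (ed g V x j)) (φ (V j).1 (ed g V x j))

/-- the fibre coordinate after `j` steps -/
def zz (g : ι → Perm X) (V : ℕ → ι × Bool) (x : X) (j : ℕ) (φ : ι → X → R) : R :=
  ∑ i ∈ range j, lab g V x φ i

theorem tr_ext (g : ι → Perm X) (V : ℕ → ι × Bool) (x : X) (φ : ι → X → R) (j : ℕ) :
    tr (fun a => ext (g a) (φ a)) V (x, 0) j = (tr g V x j, zz g V x j φ) := by
  induction j with
  | zero => rfl
  | succ j ih =>
    rw [tr_succ, ih, zz, zz, sum_range_succ, lab, ed, tr_succ]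
    unfold lt
    cases (V j).2
    · rfl
    · exact ext_inv_apply _ _ _ _

theorem zz_add (g : ι → Perm X) (V : ℕ → ι × Bool) (x : X) (j : ℕ) (φ ψ : ι → X → R) :
    zz g V x j (φ + ψ) = zz g V x j φ + zz g V x j ψ := by
  unfold zz
  rw [← sum_add_distrib]
  refine sum_congr rfl fun i _ => ?_
  unfold lab
  cases (V i).2
  · rfl
  · simp [add_comm]

/-- no cancelling pair among the first `L` letters -/
def Red (V : ℕ → ι × Bool) (L : ℕ) : Prop :=
  ∀ j, j + 1 < L → (V j).1 = (V (j + 1)).1 → (V j).2 = (V (j + 1)).2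

theorem partner [Nontrivial R] (g : ι → Perm X) {V : ℕ → ι × Bool} {L : ℕ} (hV : Red V L) (x : X)
    (i k : ℕ) (hik : i < k) (hk : k ≤ L)
    (h : (zz g V x i : (ι → X → R) → R) = zz g V x k) : i + 2 ≤ k ∧
      ∀ j, i ≤ j → j < k → ∃ j', i ≤ j' ∧ j' ≤ k ∧ j' ≠ j ∧ tr g V x j' = tr g V x j := by
  have key : ∀ j, i ≤ j → j < k → ∃ j', i ≤ j' ∧ j' < k ∧ j' ≠ j ∧ (V j').1 = (V j).1 ∧
      ed g V x j' = ed g V x j := by
    intro j h1 h2
    by_contra hn
    obtain ⟨u, hu⟩ := exists_ne (0 : R)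
    let φ : ι → X → R := fun a v => if a = (V j).1 ∧ v = ed g V x j then u else 0
    have h3 := congrFun h φ
    unfold zz at h3
    rw [← sum_range_add_sum_Ico _ hik.le, left_eq_add,
      sum_eq_single j ?_ fun hh => absurd (mem_Ico.2 ⟨h1, h2⟩) hh] at h3
    · unfold lab at h3
      simp only [φ, and_self, if_true] at h3
      cases hb : (V j).2 <;> simp [hb, hu] at h3
    · intro b hb hbj
      have : φ (V b).1 (ed g V x b) = 0 :=
        if_neg fun hh => hn ⟨b, (mem_Ico.1 hb).1, (mem_Ico.1 hb).2, hbj, hh.1, hh.2⟩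
      unfold lab
      rw [this]
      cases (V b).2 <;> simp
  refine ⟨?_, fun j h1 h2 => ?_⟩
  · obtain ⟨j', a1, a2, a3, -⟩ := key i le_rfl hik
    omega
  · obtain ⟨j', a1, a2, a3, a4, a5⟩ := key j h1 h2
    have hne : (V j').2 ≠ (V j).2 → j' + 1 ≠ j := by
      rintro hb rfl
      exact hb (hV j' (by omega) a4)
    unfold ed at a5
    simp only [tr_succ, lt, a4] at a5
    cases hb : (V j).2 <;> cases hb' : (V j').2 <;> simp only [hb, hb', cond_true, cond_false] at a5
    · exact ⟨j', a1, a2.le, a3, a5⟩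
    · refine ⟨j' + 1, by omega, a2, hne (by simp [hb, hb']), ?_⟩
      rw [tr_succ, lt, hb', a4]
      exact a5
    · refine ⟨j' + 1, by omega, a2, hne (by simp [hb, hb']), ?_⟩
      rw [tr_succ, lt, hb', a4, a5]
      simp
    · exact ⟨j', a1, a2.le, a3, (g (V j).1)⁻¹.injective a5⟩

theorem half {Ω : Type} [AddCommGroup Ω] [Fintype Ω] (F G : Ω → R)
    (hF : ∀ a b, F (a + b) = F a + F b) (hG : ∀ a b, G (a + b) = G a + G b) (h : F ≠ G) :
    ((univ.filter fun a => F a = G a).card : ℝ) ≤ Fintype.card Ω / 2 := by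
  obtain ⟨b, hb⟩ := Function.ne_iff.1 h
  have h1 : (univ.filter fun a => F a = G a).card ≤ (univ.filter fun a => ¬ F a = G a).card := by
    refine card_le_card_of_injOn (fun a => a + b) ?_ fun _ _ _ _ hh => add_right_cancel hh
    intro a ha
    simp only [coe_filter, mem_univ, true_and, Set.mem_ofPred_eq] at ha ⊢
    rw [hF, hG, ha]
    exact fun hh => hb (add_left_cancel hh)
  have h2 := card_filter_add_card_filter_not (s := (univ : Finset Ω)) fun a => F a = G a
  rw [card_univ] at h2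
  have h3 : 2 * (univ.filter fun a => F a = G a).card ≤ Fintype.card Ω := by omega
  have h4 : (2 : ℝ) * (univ.filter fun a => F a = G a).card ≤ Fintype.card Ω := by
    exact_mod_cast h3
  linarith

variable [Fintype X] [Fintype ι] [Fintype R]

theorem one_step [Nontrivial R] (g : ι → Perm X) {V : ℕ → ι × Bool} {L : ℕ} (hV : Red V L)
    (x : X) : ∑ φ : ι → X → R, Phi (tr (fun a => ext (g a) (φ a)) V (x, 0)) L ≤
      Fintype.card (ι → X → R) * (3 / 4 * Phi (tr g V x) L) := by
  let y : ℕ → X × ((ι → X → R) → R) := fun j => (tr g V x j, zz g V x j)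
  have h1 : Phi y L ≤ Phi (tr g V x) L / 2 :=
    Phi_half _ y L fun i k a b c => partner g hV x i k a b (congrArg Prod.snd c)
  have h2 : ∑ φ : ι → X → R, Phi (tr (fun a => ext (g a) (φ a)) V (x, 0)) L ≤
      Fintype.card (ι → X → R) / 2 * (Phi (tr g V x) L + Phi y L) := by
    unfold Phi
    rw [← sum_add_distrib, mul_sum, sum_comm]
    refine sum_le_sum fun i _ => ?_
    rw [← sum_add_distrib, mul_sum, sum_comm]
    refine sum_le_sum fun k _ => ?_
    simp only [tr_ext, Prod.mk.injEq, y]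
    have hw := wt_nonneg (k - i)
    by_cases c1 : i < k ∧ tr g V x i = tr g V x k
    · simp only [c1.1, c1.2, true_and, if_true]
      rw [← sum_filter, sum_const, nsmul_eq_mul]
      by_cases c2 : (zz g V x i : (ι → X → R) → R) = zz g V x k
      · rw [if_pos c2]
        have : ((univ.filter fun φ : ι → X → R => zz g V x i φ = zz g V x k φ).card : ℝ) ≤
            Fintype.card (ι → X → R) := by exact_mod_cast card_le_univ _
        nlinarith
      · rw [if_neg c2, add_zero]
        exact mul_le_mul_of_nonneg_right (half _ _ (zz_add g V x i) (zz_add g V x k) c2) hw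
    · rw [if_neg c1, if_neg fun hh => c1 ⟨hh.1, hh.2.1⟩,
        sum_eq_zero fun φ _ => if_neg fun hh => c1 ⟨hh.1, hh.2.1⟩]
      simp
  have h3 : (0 : ℝ) ≤ Fintype.card (ι → X → R) := Nat.cast_nonneg _
  nlinarith

theorem indep (D : X → Prop) (F G : (ι → X → R) → ℝ)
    (hF : ∀ φ ψ, (∀ a v, D v → φ a v = ψ a v) → F φ = F ψ)
    (hG : ∀ φ ψ, (∀ a v, ¬ D v → φ a v = ψ a v) → G φ = G ψ) :
    Fintype.card (ι → X → R) * ∑ φ, F φ * G φ = (∑ φ, F φ) * ∑ φ, G φ := by
  let m : (ι → X → R) → (ι → X → R) → ι → X → R := fun φ ψ a v => if D v then φ a v else ψ a v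
  let σ : (ι → X → R) × (ι → X → R) → (ι → X → R) × (ι → X → R) := fun q => (m q.1 q.2, m q.2 q.1)
  have hσ : Function.Involutive σ := by
    rintro ⟨φ, ψ⟩
    ext a v <;> simp only [σ, m] <;> split_ifs <;> rfl
  have h1 := Equiv.sum_comp hσ.toPerm fun q => F q.1 * G q.1
  rw [sum_mul_sum, ← Fintype.sum_prod_type', ← nsmul_eq_mul, ← card_univ, ← sum_const,
    ← Fintype.sum_prod_type_right', ← h1]
  refine sum_congr rfl fun q _ => ?_
  change F (m q.1 q.2) * G (m q.1 q.2) = _
  rw [hF (m q.1 q.2) q.1 fun a v hv => if_pos hv, hG (m q.1 q.2) q.2 fun a v hv => if_neg hv]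

/-- the trajectories of the points of `S` are pairwise disjoint -/
def Dj (g : ι → Perm X) (V : ℕ → ι × Bool) (L : ℕ) (S : Finset X) : Prop :=
  ∀ x ∈ S, ∀ x' ∈ S, x ≠ x' → ∀ i ≤ L, ∀ j ≤ L, tr g V x i ≠ tr g V x' j

theorem Phi_congr {α : Type} {x x' : ℕ → α} {L : ℕ} (h : ∀ j ≤ L, x j = x' j) :
    Phi x L = Phi x' L := by
  refine sum_congr rfl fun i hi => sum_congr rfl fun k hk => ?_
  rw [h i (Nat.lt_succ_iff.1 (mem_range.1 hi)), h k (Nat.lt_succ_iff.1 (mem_range.1 hk))]

theorem dep (g : ι → Perm X) (V : ℕ → ι × Bool) (L : ℕ) (x : X) (φ ψ : ι → X → R)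
    (h : ∀ a, ∀ j ≤ L, φ a (tr g V x j) = ψ a (tr g V x j)) :
    Phi (tr (fun a => ext (g a) (φ a)) V (x, 0)) L =
      Phi (tr (fun a => ext (g a) (ψ a)) V (x, 0)) L := by
  refine Phi_congr fun j hj => ?_
  rw [tr_ext, tr_ext]
  congr 1
  refine sum_congr rfl fun i hi => ?_
  have hi' := mem_range.1 hi
  have : φ (V i).1 (ed g V x i) = ψ (V i).1 (ed g V x i) := by
    unfold ed
    cases (V i).2
    · exact h _ _ (by omega)
    · exact h _ _ (by omega)
  unfold lab
  rw [this]

theorem many_step [Nontrivial R] (g : ι → Perm X) {V : ℕ → ι × Bool} {L : ℕ} (hV : Red V L)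
    (S : Finset X) (hS : Dj g V L S) :
    ∑ φ : ι → X → R, ∏ x ∈ S, Phi (tr (fun a => ext (g a) (φ a)) V (x, 0)) L ≤
      Fintype.card (ι → X → R) * ∏ x ∈ S, 3 / 4 * Phi (tr g V x) L := by
  induction S using Finset.induction_on with
  | empty => simp
  | insert x S hx ih =>
    have ih' := ih fun a ha b hb => hS a (mem_insert_of_mem ha) b (mem_insert_of_mem hb)
    simp only [prod_insert hx]
    have h1 := indep (fun v => ∃ j ≤ L, v = tr g V x j)
      (fun φ : ι → X → R => Phi (tr (fun a => ext (g a) (φ a)) V (x, 0)) L)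
      (fun φ : ι → X → R => ∏ x ∈ S, Phi (tr (fun a => ext (g a) (φ a)) V (x, 0)) L)
      (fun φ ψ h => dep g V L x φ ψ fun a j hj => h a _ ⟨j, hj, rfl⟩)
      (fun φ ψ h => prod_congr rfl fun x' hx' => dep g V L x' φ ψ fun a j hj => h a _ (by
        rintro ⟨i, hi, he⟩
        exact hS x' (mem_insert_of_mem hx') x (mem_insert_self _ _)
          (fun hh => hx (hh ▸ hx')) j hj i hi he))
    have h2 := one_step (R := R) g hV x
    have h3 : (0 : ℝ) < Fintype.card (ι → X → R) := by exact_mod_cast Fintype.card_pos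
    refine le_of_mul_le_mul_left ?_ h3
    rw [h1]
    refine (mul_le_mul h2 ih' (sum_nonneg fun _ _ => prod_nonneg fun _ _ => Phi_nonneg _ _)
      (mul_nonneg h3.le (by have := Phi_nonneg (tr g V x) L; positivity))).trans (le_of_eq ?_)
    ring

theorem greedy (g : ι → Perm X) (V : ℕ → ι × Bool) (L : ℕ) :
    ∀ M, M * (L + 1) ^ 2 ≤ Fintype.card X → ∃ S : Finset X, S.card = M ∧ Dj g V L S := by
  intro M
  induction M with
  | zero => exact fun _ => ⟨∅, rfl, fun _ h => absurd h (notMem_empty _)⟩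
  | succ M ih =>
    intro hM
    have hp : 0 < (L + 1) ^ 2 := by positivity
    rw [Nat.succ_mul] at hM
    obtain ⟨S, h1, h2⟩ := ih (by omega)
    let B : Finset X := (S ×ˢ (range (L + 1) ×ˢ range (L + 1))).image
      fun q => (pre g V q.2.1)⁻¹ (tr g V q.1 q.2.2)
    have hB : B.card < Fintype.card X := by
      refine card_image_le.trans_lt ?_
      rw [card_product, card_product, card_range, h1, ← sq]
      omega
    obtain ⟨x, -, hx⟩ := exists_mem_notMem_of_card_lt_card (t := univ) hB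
    have hx' : ∀ x' ∈ S, ∀ i ≤ L, ∀ j ≤ L, tr g V x i ≠ tr g V x' j := by
      intro x' hx' i hi j hj he
      refine hx (mem_image.2 ⟨(x', i, j), ?_, ?_⟩)
      · simp only [mem_product, mem_range]
        exact ⟨hx', by omega, by omega⟩
      · simp only [← he]
        simp [tr]
    have hxS : x ∉ S := fun hh => hx' x hh 0 (Nat.zero_le _) 0 (Nat.zero_le _) rfl
    refine ⟨insert x S, by rw [card_insert_of_notMem hxS, h1], ?_⟩
    intro a ha b hb hab i hi j hj
    rcases mem_insert.1 ha with rfl | ha' <;> rcases mem_insert.1 hb with rfl | hb'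
    · exact absurd rfl hab
    · exact hx' b hb' i hi j hj
    · exact (hx' a ha' j hj i hi).symm
    · exact h2 a ha' b hb' hab i hi j hj

end

end Pool.Agent.P.MP_de9ecd_al.Syl
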