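import Pool.Agent.P.MP_de9ecd_al.Syl.Step

/-! The tower of lifts and the probability that a word vanishes. -/

set_option autoImplicit false
set_option linter.unusedSectionVars false

namespace Pool.Agent.P.MP_de9ecd_al.Syl

open Finset Equiv

noncomputable section

open Classical

/-- the decay of the potential after `n` levels with fibres of size `p` -/
def Good (p n : ℕ) {X A : Type} [Fintype X] [Fintype A] (ρ : A → Perm X) : Prop :=
  ∀ (ι : Type) [Fintype ι] (V : ℕ → ι × Bool) (L M t : ℕ), Red V L → t ≤ n →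
    M * (L + 1) ^ 2 ≤ p ^ t → ∃ S : (ι → A) → Finset X,
      (∀ g, (S g).card = M ∧ Dj (fun a => ρ (g a)) V L (S g)) ∧
      ∑ g : ι → A, ∏ x ∈ S g, Phi (tr (fun a => ρ (g a)) V x) L ≤
        Fintype.card (ι → A) * ((3 / 4) ^ (n - t) * (2 * (L + 1))) ^ M

theorem base {X A ι : Type} [Fintype X] [Fintype A] [Fintype ι] (ρ : A → Perm X)
    (V : ℕ → ι × Bool) (L M : ℕ) (h : M * (L + 1) ^ 2 ≤ Fintype.card X) :
    ∃ S : (ι → A) → Finset X, (∀ g, (S g).card = M ∧ Dj (fun a => ρ (g a)) V L (S g)) ∧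
      ∑ g : ι → A, ∏ x ∈ S g, Phi (tr (fun a => ρ (g a)) V x) L ≤
        Fintype.card (ι → A) * ((3 / 4) ^ 0 * (2 * (L + 1))) ^ M := by
  choose S hS using fun g : ι → A => greedy (fun a => ρ (g a)) V L M h
  refine ⟨S, hS, ?_⟩
  rw [← nsmul_eq_mul, ← card_univ, ← sum_const, pow_zero, one_mul]
  refine sum_le_sum fun g _ => ?_
  rw [← (hS g).1, ← prod_const]
  exact prod_le_prod (fun _ _ => Phi_nonneg _ _) fun _ _ => Phi_le _ _

theorem Good.step {p n : ℕ} {X A R : Type} [Fintype X] [Fintype A] [AddCommGroup R] [Fintype R]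
    [Nontrivial R] {ρ : A → Perm X} (h : Good p n ρ) (hc : Fintype.card (X × R) = p ^ (n + 1)) :
    Good p (n + 1) fun q : A × (X → R) => ext (ρ q.1) q.2 := by
  intro ι _ V L M t hV ht hM
  rcases ht.eq_or_lt with rfl | ht
  · rw [Nat.sub_self]
    exact base (fun q : A × (X → R) => ext (ρ q.1) q.2) V L M (hc ▸ hM)
  obtain ⟨S, h1, h2⟩ := h ι V L M t hV (by omega) hM
  let e : X ↪ X × R := ⟨fun x => (x, 0), fun _ _ hh => congrArg Prod.fst hh⟩
  refine ⟨fun g => (S fun a => (g a).1).map e, fun g => ⟨by rw [card_map, (h1 _).1], ?_⟩, ?_⟩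
  · intro x hx x' hx' hne i hi j hj he
    obtain ⟨y, hy, rfl⟩ := mem_map.1 hx
    obtain ⟨y', hy', rfl⟩ := mem_map.1 hx'
    have e1 := tr_ext (fun a => ρ (g a).1) V y (fun a => (g a).2) i
    have e2 := tr_ext (fun a => ρ (g a).1) V y' (fun a => (g a).2) j
    exact (h1 _).2 y hy y' hy' (fun hh => hne (by rw [hh])) i hi j hj
      (congrArg Prod.fst (e1.symm.trans (he.trans e2)))
  · let E := Equiv.arrowProdEquivProdArrow ι (fun _ => A) fun _ => X → R
    rw [← Equiv.sum_comp E.symm, Fintype.sum_prod_type, Fintype.card_congr E, Fintype.card_prod]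
    calc _ ≤ ∑ g : ι → A, (Fintype.card (ι → X → R) : ℝ) *
          ∏ x ∈ S g, 3 / 4 * Phi (tr (fun a => ρ (g a)) V x) L := by
          refine sum_le_sum fun g _ => ?_
          refine le_trans (le_of_eq ?_) (many_step (fun a => ρ (g a)) hV (S g) (h1 g).2)
          refine sum_congr rfl fun φ _ => ?_
          rw [prod_map]
          rfl
      _ = Fintype.card (ι → X → R) * ((3 / 4) ^ M *
          ∑ g : ι → A, ∏ x ∈ S g, Phi (tr (fun a => ρ (g a)) V x) L) := by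
          rw [mul_sum, mul_sum]
          refine sum_congr rfl fun g _ => ?_
          rw [prod_mul_distrib, prod_const, (h1 g).1]
      _ ≤ Fintype.card (ι → X → R) * ((3 / 4) ^ M *
          (Fintype.card (ι → A) * ((3 / 4) ^ (n - t) * (2 * (L + 1))) ^ M)) := by gcongr
      _ = _ := by
          rw [show n + 1 - t = n - t + 1 by omega, pow_succ (3 / 4 : ℝ), Nat.cast_mul]
          simp only [mul_pow]
          ring

theorem tower (p : ℕ) [hp : Fact p.Prime] (n : ℕ) : ∃ (X A : Type) (_ : Fintype X) (_ : Fintype A)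
    (ρ : A → Perm X) (H : Subgroup (Perm X)), Fintype.card X = p ^ n ∧
      Fintype.card A = p ^ (∑ i ∈ range n, p ^ i) ∧ Function.Injective ρ ∧
      (∀ σ, σ ∈ H ↔ σ ∈ Set.range ρ) ∧ Good p n ρ := by
  induction n with
  | zero =>
    refine ⟨Unit, Unit, inferInstance, inferInstance, fun _ => 1, ⊥, rfl, rfl,
      fun _ _ _ => rfl, fun σ => by simp, ?_⟩
    intro ι _ V L M t _ ht hM
    obtain rfl : t = 0 := by omega
    exact base (fun _ : Unit => (1 : Perm Unit)) V L M hM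
  | succ n ih =>
    obtain ⟨X, A, _, _, ρ, H, h1, h2, h3, h4, h5⟩ := ih
    have hc : Fintype.card (X × ZMod p) = p ^ (n + 1) := by
      rw [Fintype.card_prod, h1, ZMod.card, pow_succ]
    let H' : Subgroup (Perm (X × ZMod p)) :=
      { carrier := Set.range fun q : A × (X → ZMod p) => ext (ρ q.1) q.2
        one_mem' := by
          obtain ⟨a, ha⟩ := (h4 1).1 H.one_mem
          refine ⟨(a, 0), Equiv.ext ?_⟩
          rintro ⟨x, z⟩
          simp [ext_apply, ha]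
        mul_mem' := by
          rintro _ _ ⟨⟨a, φ⟩, rfl⟩ ⟨⟨b, ψ⟩, rfl⟩
          obtain ⟨c, hc⟩ := (h4 _).1 (H.mul_mem ((h4 _).2 ⟨a, rfl⟩) ((h4 _).2 ⟨b, rfl⟩))
          refine ⟨(c, fun x => ψ x + φ (ρ b x)), Equiv.ext ?_⟩
          rintro ⟨x, z⟩
          simp [ext_apply, hc, add_assoc]
        inv_mem' := by
          rintro _ ⟨⟨a, φ⟩, rfl⟩
          obtain ⟨c, hc⟩ := (h4 _).1 (H.inv_mem ((h4 _).2 ⟨a, rfl⟩))
          refine ⟨(c, fun x => -φ ((ρ a)⁻¹ x)), Equiv.ext ?_⟩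
          rintro ⟨x, z⟩
          rw [ext_inv_apply, ext_apply, hc] }
    refine ⟨X × ZMod p, A × (X → ZMod p), inferInstance, inferInstance,
      fun q => ext (ρ q.1) q.2, H', hc, ?_, ?_, fun _ => Iff.rfl, h5.step hc⟩
    · rw [Fintype.card_prod, h2, Fintype.card_fun, ZMod.card, h1, sum_range_succ, pow_add]
    · rintro ⟨a, φ⟩ ⟨b, ψ⟩ hh
      have h6 : ∀ x, (ρ a x, 0 + φ x) = (ρ b x, 0 + ψ x) := fun x => Equiv.congr_fun hh (x, 0)
      refine Prod.ext (h3 (Equiv.ext fun x => congrArg Prod.fst (h6 x))) (funext fun x => ?_)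
      simpa using congrArg Prod.snd (h6 x)

theorem Good.count {p n : ℕ} (hp : 2 ≤ p) {X A ι : Type} [Fintype X] [Fintype A] [Fintype ι]
    {ρ : A → Perm X} (h : Good p n ρ) {V : ℕ → ι × Bool} {L s k : ℕ} (hV : Red V L) (h1 : 0 < L)
    (h2 : L ≤ 2 ^ s) (hn : 38 * s + 2 * k + 14 ≤ n) :
    ((univ.filter fun g : ι → A => pre (fun a => ρ (g a)) V L = 1).card : ℝ) ≤
      Fintype.card (ι → A) * (1 / 2) ^ (2 ^ s * (2 * k + 2)) := by
  have h3 : L + 1 ≤ 2 * 2 ^ s := by omega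
  have hM : 2 ^ s * (2 * k + 2) * (L + 1) ^ 2 ≤ p ^ (3 * s + 2 * k + 4) := by
    have h4 : 2 * k + 2 ≤ 2 ^ (2 * k + 2) := Nat.lt_two_pow_self.le
    calc _ ≤ 2 ^ s * 2 ^ (2 * k + 2) * (2 * 2 ^ s) ^ 2 := by gcongr
      _ = 2 ^ (3 * s + 2 * k + 4) := by ring
      _ ≤ _ := Nat.pow_le_pow_left hp _
  obtain ⟨S, a1, a2⟩ := h ι V L _ _ hV (by omega) hM
  generalize 2 ^ s * (2 * k + 2) = M at a1 a2 ⊢
  have hL : (0 : ℝ) < L := by exact_mod_cast h1
  have hw : 0 < wt L := by unfold wt; positivity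
  have h5 : (3 / 4 : ℝ) ^ (n - (3 * s + 2 * k + 4)) * (2 * (L + 1)) ≤ 1 / 2 * wt L := by
    have e1 : (3 / 4 : ℝ) ^ (n - (3 * s + 2 * k + 4)) ≤ (1 / 4) ^ (7 * s + 2) :=
      calc _ ≤ (3 / 4 : ℝ) ^ (5 * (7 * s + 2)) :=
            pow_le_pow_of_le_one (by norm_num) (by norm_num) (by omega)
        _ ≤ _ := by
            rw [pow_mul]
            exact pow_le_pow_left₀ (by positivity) (by norm_num) _
    have e2 : (L : ℝ) ≤ 2 ^ s := by exact_mod_cast h2
    have e3 : (L : ℝ) + 1 ≤ 2 * 2 ^ s := by exact_mod_cast h3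
    have e4 : (1 : ℝ) ≤ 2 ^ s := one_le_pow₀ (by norm_num)
    have e5 : (1 / 4 : ℝ) ^ (7 * s + 2) = (16 * (2 ^ s) ^ 14)⁻¹ := by
      rw [show (1 / 4 : ℝ) = (2 ^ 2)⁻¹ by norm_num, inv_pow, ← pow_mul, ← pow_mul]
      congr 1
      rw [show (16 : ℝ) = 2 ^ 4 by norm_num, ← pow_add]
      congr 1
      ring
    rw [e5] at e1
    generalize (2 : ℝ) ^ s = T at e1 e2 e3 e4
    calc _ ≤ (16 * T ^ 14)⁻¹ * (2 * (2 * T)) := by gcongr
      _ = 1 / 2 * (2 * T * T ^ 12)⁻¹ := by field_simp; norm_num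
      _ ≤ _ := by
          unfold wt
          gcongr
          calc (L : ℝ) ^ 12 ≤ 1 * T ^ 12 := by rw [one_mul]; gcongr
            _ ≤ _ := by gcongr; linarith
  have h6 : ((univ.filter fun g : ι → A => pre (fun a => ρ (g a)) V L = 1).card : ℝ) * wt L ^ M ≤
      ∑ g : ι → A, ∏ x ∈ S g, Phi (tr (fun a => ρ (g a)) V x) L := by
    rw [← nsmul_eq_mul]
    refine (card_nsmul_le_sum _ _ _ fun g hg => ?_).trans
      (sum_le_sum_of_subset_of_nonneg (filter_subset _ _)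
        fun _ _ _ => prod_nonneg fun _ _ => Phi_nonneg _ _)
    rw [← (a1 g).1, ← prod_const]
    refine prod_le_prod (fun _ _ => hw.le) fun x _ => wt_le_Phi _ h1 ?_
    unfold tr
    rw [(mem_filter.1 hg).2]
    rfl
  refine le_of_mul_le_mul_right (h6.trans (a2.trans ?_)) (pow_pos hw M)
  rw [mul_assoc, ← mul_pow]
  gcongr

end

end Pool.Agent.P.MP_de9ecd_al.Syl
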